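import Pool.Agent.Lib.MP_b611b5_al.NotEA

set_option autoImplicit false

namespace Pool.Agent.Results.MP_b611b5_al.ContractingBranch

open Pool.Agent.Lib.MP_b611b5_al

/-- There is a finitely presented branch group which is a contracting self-similar group, regular
branch over itself, perfect, just infinite with the congruence subgroup property, residually
finite, not virtually solvable, not elementary amenable, and without free subgroups of rank two. -/
theorem result : ∃ (X : Type) (_ : Finite X) (_ : Nontrivial X)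
    (G : Subgroup (Equiv.Perm (List X))), Group.IsFinitelyPresented G ∧
      (∀ g ∈ G, ∀ v, (g v).length = v.length) ∧
      (∀ g ∈ G, ∀ v, ∃ h ∈ G, ∀ w, g (v ++ w) = g v ++ h w) ∧
      (∀ v w : List X, v.length = w.length → ∃ g ∈ G, g v = w) ∧
      (∀ k : ℕ, (Subgroup.closure {g : G | ∃ v : List X, v.length = k ∧
        ∀ w, ¬ v <+: w → g.1 w = w}).index ≠ 0) ∧
      (∃ N : Set (Equiv.Perm (List X)), N.Finite ∧ N ⊆ G ∧ ∀ g ∈ G, ∃ n : ℕ, ∀ v : List X,
        n ≤ v.length → ∃ h ∈ N, ∀ w, g (v ++ w) = g v ++ h w) ∧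
      (∀ v : List X, ∀ h ∈ G, ∃ g ∈ G, (∀ w, g (v ++ w) = v ++ h w) ∧ ∀ w, ¬ v <+: w → g w = w) ∧
      commutator G = ⊤ ∧ Infinite G ∧
      (∀ K : Subgroup G, K.Normal → K ≠ ⊥ → K.FiniteIndex ∧
        ∃ k : ℕ, ∀ g : G, (∀ v : List X, v.length = k → g.1 v = v) → g ∈ K) ∧
      Group.ResiduallyFinite G ∧ (∀ H : Subgroup G, H.FiniteIndex → ¬ Group.IsSolvable H) ∧
      ¬ ElemAmenable G ∧
      ∀ f : FreeGroup (Fin 2) →* G, ¬ Function.Injective f :=
  exists_contracting_branch

end Pool.Agent.Results.MP_b611b5_al.ContractingBranch
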